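import Mathlib

set_option autoImplicit false

namespace H316Z.Tree

/-- A phylogenetic tree of size `n`: a finite tree in which every vertex has degree 1 or 3 and whose
degree-one vertices (leaves) are labelled bijectively by `Fin n`. -/
structure PhyloTree (n : ℕ) where
  /-- the vertex type -/
  V : Type
  /-- finitely many vertices -/
  fin : Finite V
  /-- the graph -/
  G : SimpleGraph V
  /-- it is a tree -/
  isTree : G.IsTree
  /-- every vertex has degree 1 or 3 -/
  deg : ∀ v, (G.neighborSet v).ncard = 1 ∨ (G.neighborSet v).ncard = 3
  /-- the leaf with a given label -/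
  leaf : Fin n → V
  /-- different labels sit on different vertices -/
  leaf_inj : Function.Injective leaf
  /-- the labelled vertices are exactly the vertices of degree one -/
  leaf_iff : ∀ v, (G.neighborSet v).ncard = 1 ↔ v ∈ Set.range leaf

/-- A caterpillar: the internal vertices (those left after deleting all leaves) form a path on
`n - 2` vertices; for `n ≤ 2` every tree of size `n` counts as a caterpillar. -/
def PhyloTree.IsCaterpillar {n : ℕ} (T : PhyloTree n) : Prop :=
  n ≤ 2 ∨ Nonempty (T.G.induce {v | v ∉ Set.range T.leaf} ≃g SimpleGraph.pathGraph (n - 2))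

/-- The partitions of the label set (as equivalence relations) obtained by deleting some set `D` of
edges: two labels are in one class iff their leaves lie in one component of `T - D`. -/
def PhyloTree.parts {n : ℕ} (T : PhyloTree n) : Set (Setoid (Fin n)) :=
  {r | ∃ D : Set (Sym2 T.V),
    ∀ i j, r i j ↔ (T.G.deleteEdges D).Reachable (T.leaf i) (T.leaf j)}

/-- The number of partitions with exactly `k` classes common to `T` and `F`. -/
noncomputable def common {n : ℕ} (T F : PhyloTree n) (k : ℕ) : ℕ :=
  (T.parts ∩ F.parts ∩ {r | Nat.card (Quotient r) = k}).ncard

/-- `s n k`: the minimum of `common T F k` over all pairs of phylogenetic trees of size `n`. -/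
noncomputable def sMin (n k : ℕ) : ℕ :=
  sInf {m | ∃ T F : PhyloTree n, common T F k = m}

/-- `c n k`: the minimum of `common T F k` over all pairs of caterpillars of size `n`. -/
noncomputable def cMin (n k : ℕ) : ℕ :=
  sInf {m | ∃ T F : PhyloTree n, T.IsCaterpillar ∧ F.IsCaterpillar ∧ common T F k = m}

end H316Z.Tree
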