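import Mathlib

set_option autoImplicit false

namespace H316Z.Tree

/-- base 8 digit -/
def dig (c i : ℕ) : ℕ := c / 8 ^ i % 8

def LT : List ℕ := [1753088, 1738240, 1590784, 181760, 1736832, 1589376, 180352, 1574528, 165504, 18048, 1736712, 1589256, 180232, 1574408, 165384, 17928, 1741384, 1622600, 442952, 1611336, 431688, 312904, 1573000, 163976, 16520, 1610376, 430728, 311944, 1647752, 697480, 607368, 1672, 300680, 599688, 898696]

def NT : List ℕ := [1750528, 1196168, 1655936, 1480264, 1720904, 964104, 697984, 1476104, 964168, 1720328, 1229384, 1720448, 1685000, 1474696, 1689088, 1228808, 1685064]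

def R7 : List ℕ := [0, 1, 2, 3, 4, 5, 6]
def R5 : List ℕ := [0, 1, 2, 3, 4]

/-- spine label guess -/
def gl (q c t : ℕ) : ℕ :=
  match R7.find? (fun i => decide (dig q i ≤ t) &&
      R7.any (fun j => dig c i == dig c j && i != j && decide (t ≤ dig q j))) with
  | some i => dig c i
  | none => 0

def goodB (q c : ℕ) : Bool :=
  let g := gl q c 0 + 8 * gl q c 1 + 64 * gl q c 2 + 512 * gl q c 3 + 4096 * gl q c 4
  R7.all fun i => R7.all fun j => dig c i != dig c j || i == j ||
    R5.all fun t => !(decide (dig q i ≤ t) && decide (t ≤ dig q j)) || dig g t == dig c i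

def enc (a0 a1 a2 a3 a4 a5 a6 : ℕ) : ℕ :=
  a0 + 8 * a1 + 64 * a2 + 512 * a3 + 4096 * a4 + 32768 * a5 + 262144 * a6

def checkA : Bool :=
  R5.all fun a0 => R5.all fun a1 => R5.all fun a2 => R5.all fun a3 => R5.all fun a4 =>
    R5.all fun a5 => R5.all fun a6 =>
      8 ^ a0 + 8 ^ a1 + 8 ^ a2 + 8 ^ a3 + 8 ^ a4 + 8 ^ a5 + 8 ^ a6 != 8778 ||
        NT.any fun c => goodB (enc a0 a1 a2 a3 a4 a5 a6) c

theorem checkA_true : checkA = true := by decide +kernel

def p0 : ℕ := enc 0 0 1 2 3 4 4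

theorem NT_good : ∀ c ∈ NT, goodB p0 c = true := by decide +kernel

theorem sep : ∀ c ∈ NT ++ LT, ∀ c' ∈ LT, c ≠ c' →
    ∃ i j : Fin 7, ¬ (dig c i = dig c j ↔ dig c' i = dig c' j) := by decide +kernel

theorem NT_notin : ∀ c ∈ NT, c ∉ LT := by decide +kernel

theorem LT_nodup : LT.Nodup := by decide +kernel

theorem four : ∀ c ∈ NT ++ LT, (Finset.univ.image (fun i : Fin 7 => dig c i)).card = 4 := by
  decide +kernel

theorem LT_triv : ∀ c ∈ LT, ∃ m : Fin 7, ∀ i j : Fin 7, i ≠ j → dig c i = dig c j → dig c i = m := by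
  decide +kernel

def CT : List ℕ := [11152036, 11020944, 10496576, 8399104, 9216]
def CF : List ℕ := [9970054, 11052682, 8396866, 9087394, 8193]
def d4 (c i : ℕ) : ℕ := c / 4 ^ i % 4

def cross (L : List ℕ) (a b c d : ℕ) : Bool :=
  L.any fun x => d4 x a != d4 x b && d4 x c != d4 x d

def badB (f : ℕ) : Bool :=
  R7.any fun a => R7.any fun b => dig f a == dig f b && a != b &&
    R7.any fun c => dig f a != dig f c && R7.any fun d => dig f c == dig f d && c != d &&
      (cross CT a b c d || cross CF a b c d)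

def checkB : Bool :=
  (R7.take 2).all fun a1 => (R7.take 3).all fun a2 => (R7.take 4).all fun a3 =>
    (R7.take 5).all fun a4 => (R7.take 6).all fun a5 => R7.all fun a6 =>
      (if a1 = 1 then 1 else 0) + (if a2 = 2 then 1 else 0) + (if a3 = 3 then 1 else 0) +
        (if a4 = 4 then 1 else 0) + (if a5 = 5 then 1 else 0) + (if a6 = 6 then 1 else 0) != 3 ||
      !(R7.all fun i => dig (enc 0 a1 a2 a3 a4 a5 a6) (dig (enc 0 a1 a2 a3 a4 a5 a6) i) ==
        dig (enc 0 a1 a2 a3 a4 a5 a6) i) ||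
      LT.contains (enc 0 a1 a2 a3 a4 a5 a6) || badB (enc 0 a1 a2 a3 a4 a5 a6)

theorem checkB_true : checkB = true := by decide +kernel

end H316Z.Tree
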