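import Pool.Agent.H316Z.Tree.Defs
import Pool.Agent.H316Z.Tree.Fin

set_option autoImplicit false

namespace H316Z.Tree

open SimpleGraph

/-- standard positions -/
def P0 : Fin 7 → Fin 5 := ![0, 0, 1, 2, 3, 4, 4]

structure Spine (T : PhyloTree 7) where
  s : Fin 5 → T.V
  p : Fin 7 → Fin 5
  s_inj : Function.Injective s
  s_ne : ∀ t, s t ∉ Set.range T.leaf
  adj : ∀ t u : Fin 5, t.val + 1 = u.val → T.G.Adj (s t) (s u)
  ladj : ∀ i, T.G.Adj (T.leaf i) (s (p i))
  σ : Fin 7 ≃ Fin 7
  hσ : ∀ i, p (σ i) = P0 i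

theorem exists_spine (T : PhyloTree 7) (h : T.IsCaterpillar) : Nonempty (Spine T) := by
  classical
  rcases h with h | ⟨⟨e⟩⟩
  · omega
  have hfin := T.fin
  let s : Fin 5 → T.V := fun t => (e.symm t).1
  have s_inj : Function.Injective s := fun a b hab => by
    have : e.symm a = e.symm b := Subtype.ext hab
    exact e.symm.injective this
  have s_ne : ∀ t, s t ∉ Set.range T.leaf := fun t => (e.symm t).2
  have s_surj : ∀ v, v ∉ Set.range T.leaf → ∃ t, s t = v := fun v hv =>
    ⟨e ⟨v, hv⟩, by simp [s]⟩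
  have s_adj : ∀ t u : Fin 5, T.G.Adj (s t) (s u) ↔ (t.val + 1 = u.val ∨ u.val + 1 = t.val) := by
    intro t u
    have h1 := e.symm.map_adj_iff (v := t) (w := u)
    rw [pathGraph_adj] at h1
    rw [← h1]
    simp [s]
  have hone : ∀ i, ∃ w, T.G.neighborSet (T.leaf i) = {w} := fun i =>
    Set.ncard_eq_one.mp ((T.leaf_iff _).mpr ⟨i, rfl⟩)
  have hp : ∀ i, ∃ t, T.G.neighborSet (T.leaf i) = {s t} := by
    intro i
    obtain ⟨w, hw⟩ := hone i
    by_cases hwl : w ∈ Set.range T.leaf
    · exfalso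
      obtain ⟨j, rfl⟩ := hwl
      obtain ⟨w', hw'⟩ := hone j
      have hadj : T.G.Adj (T.leaf i) (T.leaf j) := by
        have : T.leaf j ∈ T.G.neighborSet (T.leaf i) := by rw [hw]; rfl
        exact this
      have hw2 : w' = T.leaf i := by
        have : T.leaf i ∈ T.G.neighborSet (T.leaf j) := hadj.symm
        rw [hw'] at this
        exact this.symm
      have key : ∀ (u v : T.V) (_ : T.G.Walk u v), u ∈ Set.range T.leaf ∧ (u = T.leaf i ∨ u = T.leaf j) →
          v ∈ Set.range T.leaf := by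
        intro u v w
        induction w with
        | nil => intro h; exact h.1
        | @cons a b c hab _ ih =>
          intro h
          apply ih
          rcases h.2 with rfl | rfl
          · have : b ∈ T.G.neighborSet (T.leaf i) := hab
            rw [hw] at this
            have hb : b = T.leaf j := this
            exact ⟨⟨j, hb.symm⟩, Or.inr hb⟩
          · have : b ∈ T.G.neighborSet (T.leaf j) := hab
            rw [hw', hw2] at this
            have hb : b = T.leaf i := this
            exact ⟨⟨i, hb.symm⟩, Or.inl hb⟩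
      obtain ⟨w⟩ := T.isTree.connected.preconnected (T.leaf i) (s 0)
      exact s_ne 0 (key _ _ w ⟨⟨i, rfl⟩, Or.inl rfl⟩)
    · obtain ⟨t, rfl⟩ := s_surj w hwl
      exact ⟨t, hw⟩
  choose p hp using hp
  have ladj : ∀ i t, T.G.Adj (T.leaf i) (s t) ↔ p i = t := by
    intro i t
    have : T.G.Adj (T.leaf i) (s t) ↔ s t ∈ T.G.neighborSet (T.leaf i) := Iff.rfl
    rw [this, hp i, Set.mem_singleton_iff, s_inj.eq_iff, eq_comm]
  have hfib : ∀ t, Fintype.card {i // P0 i = t} = Fintype.card {i // p i = t} := by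
    intro t
    have h3 : (T.G.neighborSet (s t)).ncard = 3 := by
      rcases T.deg (s t) with h | h
      · exact absurd ((T.leaf_iff _).mp h) (s_ne t)
      · exact h
    have hset : T.G.neighborSet (s t) = T.leaf '' {i | p i = t} ∪
        s '' {u | t.val + 1 = u.val ∨ u.val + 1 = t.val} := by
      ext v
      simp only [mem_neighborSet, Set.mem_union, Set.mem_image, Set.mem_ofPred_eq]
      constructor
      · intro hv
        by_cases hl : v ∈ Set.range T.leaf
        · obtain ⟨i, rfl⟩ := hl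
          exact Or.inl ⟨i, (ladj i t).mp hv.symm, rfl⟩
        · obtain ⟨u, rfl⟩ := s_surj v hl
          exact Or.inr ⟨u, (s_adj t u).mp hv, rfl⟩
      · rintro (⟨i, hi, rfl⟩ | ⟨u, hu, rfl⟩)
        · exact ((ladj i t).mpr hi).symm
        · exact (s_adj t u).mpr hu
    rw [hset, Set.ncard_union_eq, Set.ncard_image_of_injective _ T.leaf_inj,
      Set.ncard_image_of_injective _ s_inj] at h3
    · have e1 : ({i | p i = t} : Set (Fin 7)).ncard = Fintype.card {i // p i = t} := by
        rw [← Nat.card_eq_fintype_card]; rfl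
      have e2 : ({u | t.val + 1 = u.val ∨ u.val + 1 = t.val} : Set (Fin 5)).ncard =
          Fintype.card {u : Fin 5 // t.val + 1 = u.val ∨ u.val + 1 = t.val} := by
        rw [← Nat.card_eq_fintype_card]; rfl
      have e3 : ∀ t : Fin 5, Fintype.card {i // P0 i = t} +
          Fintype.card {u : Fin 5 // t.val + 1 = u.val ∨ u.val + 1 = t.val} = 3 := by
        decide +kernel
      have := e3 t
      omega
    · rw [Set.disjoint_left]
      rintro v ⟨i, _, rfl⟩ ⟨u, _, hu⟩
      exact s_ne u ⟨i, hu.symm⟩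
  let σ : Fin 7 ≃ Fin 7 := Equiv.ofFiberEquiv (f := P0) (g := p)
    (fun t => Fintype.equivOfCardEq (hfib t))
  exact ⟨⟨s, p, s_inj, s_ne, fun t u h => (s_adj t u).mpr (Or.inl h),
    fun i => (ladj i _).mpr rfl, σ, fun i => Equiv.ofFiberEquiv_map _ i⟩⟩

theorem mem_parts {T : PhyloTree 7} (S : Spine T) (f : Fin 7 → ℕ) (g : ℕ → ℕ)
    (h : ∀ i j, i ≠ j → f i = f j → ∀ t : ℕ, (S.p i).val ≤ t → t ≤ (S.p j).val → g t = f i) :
    Setoid.ker f ∈ T.parts := by
  classical
  let lab : T.V → ℕ := Function.extend T.leaf f (Function.extend S.s (fun t => g t.val) 0)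
  have l1 : ∀ i, lab (T.leaf i) = f i := fun i => T.leaf_inj.extend_apply _ _ i
  have l2 : ∀ t, lab (S.s t) = g t.val := by
    intro t
    have : ¬ ∃ i, T.leaf i = S.s t := S.s_ne t
    simp only [lab]
    rw [Function.extend_apply' _ _ _ this, S.s_inj.extend_apply]
  let D : Set (Sym2 T.V) := {e | ∃ u v, e = s(u, v) ∧ lab u ≠ lab v}
  have hadj : ∀ u v, (T.G.deleteEdges D).Adj u v ↔ T.G.Adj u v ∧ lab u = lab v := by
    intro u v
    rw [deleteEdges_adj]
    constructor
    · rintro ⟨h1, h2⟩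
      refine ⟨h1, ?_⟩
      by_contra hne
      exact h2 ⟨u, v, rfl, hne⟩
    · rintro ⟨h1, h2⟩
      refine ⟨h1, ?_⟩
      rintro ⟨a, b, hab, hne⟩
      rcases Sym2.eq_iff.mp hab with ⟨rfl, rfl⟩ | ⟨rfl, rfl⟩
      · exact hne h2
      · exact hne h2.symm
  have hspine : ∀ (d : ℕ) (a b : Fin 5) (c : ℕ), b.val = a.val + d →
      (∀ t : ℕ, a.val ≤ t → t ≤ b.val → g t = c) →
      (T.G.deleteEdges D).Reachable (S.s a) (S.s b) := by
    intro d
    induction d with
    | zero =>
      intro a b c hb _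
      have : a = b := Fin.ext (by omega)
      subst this
      rfl
    | succ d ih =>
      intro a b c hb hg
      have hlt : a.val + d < 5 := by have := b.2; omega
      have h1 := ih a ⟨a.val + d, hlt⟩ c rfl (fun t h1 h2 => hg t h1 (by simp at h2; omega))
      refine h1.trans (Adj.reachable ((hadj _ _).mpr ⟨S.adj _ _ (by simp; omega), ?_⟩))
      rw [l2, l2, hg _ (by simp) (by simp; omega), hg _ (by omega) le_rfl]
  have hmain : ∀ i j, i ≠ j → f i = f j → (S.p i).val ≤ (S.p j).val →
      (T.G.deleteEdges D).Reachable (T.leaf i) (T.leaf j) := by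
    intro i j hij hf hle
    have hg := h i j hij hf
    have a1 : (T.G.deleteEdges D).Adj (T.leaf i) (S.s (S.p i)) :=
      (hadj _ _).mpr ⟨S.ladj i, by rw [l1, l2, hg _ le_rfl hle]⟩
    have a2 : (T.G.deleteEdges D).Adj (T.leaf j) (S.s (S.p j)) :=
      (hadj _ _).mpr ⟨S.ladj j, by rw [l1, l2, hg _ hle le_rfl, hf]⟩
    exact (a1.reachable.trans (hspine ((S.p j).val - (S.p i).val) _ _ (f i) (by omega) hg)).trans
      a2.reachable.symm
  refine ⟨D, fun i j => ?_⟩
  rw [Setoid.ker_def]
  constructor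
  · intro hf
    by_cases hij : i = j
    · subst hij; rfl
    rcases le_total (S.p i).val (S.p j).val with hle | hle
    · exact hmain i j hij hf hle
    · exact (hmain j i (Ne.symm hij) hf.symm hle).symm
  · rintro ⟨w⟩
    have key : ∀ (u v : T.V) (_ : (T.G.deleteEdges D).Walk u v), lab u = lab v := by
      intro u v w
      induction w with
      | nil => rfl
      | cons hab _ ih => exact ((hadj _ _).mp hab).2.trans ih
    rw [← l1, ← l1]
    exact key _ _ w

theorem mem_R7 (i : Fin 7) : i.val ∈ R7 := by revert i; decide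
theorem mem_R5 (i : Fin 5) : i.val ∈ R5 := by revert i; decide

theorem good_spec {q c : ℕ} (h : goodB q c = true) : ∃ g : ℕ → ℕ, ∀ i j : Fin 7, i ≠ j →
    dig c i = dig c j → ∀ t : ℕ, t < 5 → dig q i ≤ t → t ≤ dig q j → g t = dig c i := by
  refine ⟨dig (gl q c 0 + 8 * gl q c 1 + 64 * gl q c 2 + 512 * gl q c 3 + 4096 * gl q c 4), ?_⟩
  intro i j hij hc t ht h1 h2
  simp only [goodB, List.all_eq_true] at h
  have h3 := h _ (mem_R7 i) _ (mem_R7 j)
  have hne : i.val ≠ j.val := fun e => hij (Fin.ext e)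
  simp only [Bool.or_eq_true, bne_iff_ne, ne_eq, beq_iff_eq, List.all_eq_true] at h3
  rcases h3 with (h3 | h3) | h3
  · exact absurd hc h3
  · exact absurd h3 hne
  · have h4 := h3 t (mem_R5 ⟨t, ht⟩)
    simpa [h1, h2] using h4

theorem dig_enc (a : Fin 7 → ℕ) (ha : ∀ i, a i < 8) (i : Fin 7) :
    dig (enc (a 0) (a 1) (a 2) (a 3) (a 4) (a 5) (a 6)) i = a i := by
  have h0 := ha 0; have h1 := ha 1; have h2 := ha 2; have h3 := ha 3
  have h4 := ha 4; have h5 := ha 5; have h6 := ha 6
  fin_cases i <;> simp [dig, enc] <;> omega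

theorem card_quot (f : Fin 7 → ℕ) :
    Nat.card (Quotient (Setoid.ker f)) = (Finset.univ.image f).card := by
  rw [Nat.card_congr (Setoid.quotientKerEquivRange f), ← Set.ncard_coe_finset]
  simp only [Finset.coe_image, Finset.coe_univ, Set.image_univ]
  rfl

theorem common_ge (T F : PhyloTree 7) (hT : T.IsCaterpillar) (hF : F.IsCaterpillar) :
    36 ≤ common T F 4 := by
  classical
  obtain ⟨S⟩ := exists_spine T hT
  obtain ⟨U⟩ := exists_spine F hF
  let a : Fin 7 → ℕ := fun i => (U.p (S.σ i)).val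
  have ha5 : ∀ i, a i < 5 := fun i => (U.p _).2
  have hsum : 8 ^ a 0 + 8 ^ a 1 + 8 ^ a 2 + 8 ^ a 3 + 8 ^ a 4 + 8 ^ a 5 + 8 ^ a 6 = 8778 := by
    have e1 : ∑ i, 8 ^ a i = ∑ i, 8 ^ (U.p i).val :=
      Equiv.sum_comp S.σ (fun i => 8 ^ (U.p i).val)
    have e2 : ∑ i, 8 ^ (U.p (U.σ i)).val = ∑ i, 8 ^ (U.p i).val :=
      Equiv.sum_comp U.σ (fun i => 8 ^ (U.p i).val)
    simp only [U.hσ] at e2
    rw [← e2, Fin.sum_univ_seven] at e1
    rw [e1]
    decide
  have hA := checkA_true
  simp only [checkA, List.all_eq_true] at hA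
  have hA2 := hA _ (mem_R5 ⟨a 0, ha5 0⟩) _ (mem_R5 ⟨a 1, ha5 1⟩) _ (mem_R5 ⟨a 2, ha5 2⟩)
    _ (mem_R5 ⟨a 3, ha5 3⟩) _ (mem_R5 ⟨a 4, ha5 4⟩) _ (mem_R5 ⟨a 5, ha5 5⟩) _ (mem_R5 ⟨a 6, ha5 6⟩)
  simp only [hsum, bne_self_eq_false, Bool.false_or, List.any_eq_true] at hA2
  obtain ⟨c0, hc0, hgood⟩ := hA2
  let K : ℕ → Setoid (Fin 7) := fun c => Setoid.ker (fun i => dig c (S.σ.symm i))
  have hP0 : ∀ i : Fin 7, dig p0 i = (P0 i).val := by decide +kernel
  have hmem : ∀ c ∈ c0 :: LT, K c ∈ T.parts ∩ F.parts ∩ {r | Nat.card (Quotient r) = 4} := by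
    intro c hc
    have hc' : c ∈ NT ++ LT := by
      rcases List.mem_cons.mp hc with rfl | h
      · exact List.mem_append_left _ hc0
      · exact List.mem_append_right _ h
    refine ⟨?_, ?_⟩
    · rcases List.mem_cons.mp hc with rfl | h
      · constructor
        · obtain ⟨g, hg⟩ := good_spec (NT_good c hc0)
          refine mem_parts S _ g ?_
          intro i j hij hf t h1 h2
          refine hg _ _ (fun e => hij (S.σ.symm.injective e)) hf t ?_ ?_ ?_
          · have := (S.p j).2; omega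
          · rw [hP0, ← S.hσ]; simpa using h1
          · rw [hP0, ← S.hσ]; simpa using h2
        · obtain ⟨g, hg⟩ := good_spec hgood
          refine mem_parts U _ g ?_
          intro i j hij hf t h1 h2
          refine hg _ _ (fun e => hij (S.σ.symm.injective e)) hf t ?_ ?_ ?_
          · have := (U.p j).2; omega
          · rw [dig_enc a (fun i => by have := ha5 i; omega)]; simpa [a] using h1
          · rw [dig_enc a (fun i => by have := ha5 i; omega)]; simpa [a] using h2
      · obtain ⟨m, hm⟩ := LT_triv c h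
        constructor
        · exact mem_parts S _ (fun _ => m.val) (fun i j hij hf t _ _ =>
            (hm _ _ (fun e => hij (S.σ.symm.injective e)) hf).symm)
        · exact mem_parts U _ (fun _ => m.val) (fun i j hij hf t _ _ =>
            (hm _ _ (fun e => hij (S.σ.symm.injective e)) hf).symm)
    · show Nat.card (Quotient (K c)) = 4
      rw [card_quot, ← four c hc']
      congr 1
      ext x
      simp only [Finset.mem_image, Finset.mem_univ, true_and]
      constructor
      · rintro ⟨i, rfl⟩; exact ⟨_, rfl⟩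
      · rintro ⟨i, rfl⟩; exact ⟨S.σ i, by simp⟩
  have hsep : ∀ c ∈ NT ++ LT, ∀ c' ∈ LT, K c = K c' → c = c' := by
    intro c hc c' hc' hK
    by_contra hne
    obtain ⟨i, j, hij⟩ := sep c hc c' hc' hne
    apply hij
    have : K c (S.σ i) (S.σ j) ↔ K c' (S.σ i) (S.σ j) := by rw [hK]
    simpa [K, Setoid.ker_def] using this
  have hinj : Set.InjOn K ((c0 :: LT).toFinset : Set ℕ) := by
    intro c hc c' hc' hK
    simp only [List.coe_toFinset, List.mem_cons, Set.mem_ofPred_eq] at hc hc'
    rcases hc with rfl | hc <;> rcases hc' with rfl | hc'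
    · rfl
    · exact hsep _ (List.mem_append_left _ hc0) _ hc' hK
    · exact (hsep _ (List.mem_append_left _ hc0) _ hc hK.symm).symm
    · exact hsep _ (List.mem_append_right _ hc) _ hc' hK
  have hcard : ((c0 :: LT).toFinset).card = 36 := by
    rw [List.toFinset_card_of_nodup (List.nodup_cons.mpr ⟨NT_notin c0 hc0, LT_nodup⟩)]
    rfl
  have hfin : Finite (Setoid (Fin 7)) :=
    Finite.of_injective (fun r : Setoid (Fin 7) => r.r) (fun r s h => Setoid.ext (fun a b => by
      have : r.r a b ↔ s.r a b := by rw [show r.r = s.r from h]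
      exact this))
  unfold common
  rw [← hcard, ← Set.ncard_coe_finset, ← hinj.ncard_image]
  apply Set.ncard_le_ncard _ (Set.toFinite _)
  rintro _ ⟨c, hc, rfl⟩
  exact hmem c (by simpa using hc)

end H316Z.Tree
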