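import Pool.Agent.H316Z.Tree.Lower

set_option autoImplicit false

namespace H316Z.Tree

open SimpleGraph

def ofPar (par : Fin 12 → Fin 12) : SimpleGraph (Fin 12) where
  Adj u v := u ≠ v ∧ (par u = v ∨ par v = u)
  symm := ⟨fun _ _ h => ⟨h.1.symm, h.2.symm⟩⟩
  loopless := ⟨fun _ h => h.1 rfl⟩

instance (par : Fin 12 → Fin 12) : DecidableRel (ofPar par).Adj := fun u v =>
  inferInstanceAs (Decidable (u ≠ v ∧ (par u = v ∨ par v = u)))

theorem ofPar_tree (par : Fin 12 → Fin 12) (rk : Fin 12 → ℕ)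
    (h : ∀ v, v ≠ 7 → rk (par v) < rk v) (hc : (ofPar par).edgeFinset.card = 11) :
    (ofPar par).IsTree := by
  rw [isTree_iff_connected_and_card]
  constructor
  · have key : ∀ (n : ℕ) (v : Fin 12), rk v < n → (ofPar par).Reachable v 7 := by
      intro n
      induction n with
      | zero => intro v hv; omega
      | succ n ih =>
        intro v hv
        by_cases h7 : v = 7
        · subst h7; rfl
        · have h1 := h v h7
          have : (ofPar par).Adj v (par v) := ⟨fun e => by rw [← e] at h1; omega, Or.inl rfl⟩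
          exact this.reachable.trans (ih _ (by omega))
    exact ⟨fun u v => (key _ u (Nat.lt_succ_self _)).trans (key _ v (Nat.lt_succ_self _)).symm⟩
  · rw [Nat.card_eq_fintype_card, ← edgeFinset_card, hc]
    simp

def lf : Fin 7 → Fin 12 := fun i => ⟨i.val, by omega⟩

def mkTree (par : Fin 12 → Fin 12) (rk : Fin 12 → ℕ)
    (h : ∀ v, v ≠ 7 → rk (par v) < rk v) (hc : (ofPar par).edgeFinset.card = 11)
    (hd : ∀ v, (ofPar par).degree v = if v.val < 7 then 1 else 3) : PhyloTree 7 where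
  V := Fin 12
  fin := inferInstance
  G := ofPar par
  isTree := ofPar_tree par rk h hc
  deg := by
    intro v
    rw [← coe_neighborFinset, Set.ncard_coe_finset, card_neighborFinset_eq_degree, hd]
    split_ifs <;> simp
  leaf := lf
  leaf_inj := fun a b hab => Fin.ext (by simpa [lf] using congrArg Fin.val hab)
  leaf_iff := by
    intro v
    rw [← coe_neighborFinset, Set.ncard_coe_finset, card_neighborFinset_eq_degree, hd]
    constructor
    · intro h1
      by_cases hv : v.val < 7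
      · exact ⟨⟨v.val, hv⟩, rfl⟩
      · simp [hv] at h1
    · rintro ⟨i, rfl⟩
      simp [lf]

def parT : Fin 12 → Fin 12 := ![7, 7, 8, 9, 10, 11, 11, 7, 7, 8, 9, 10]
def rkT : Fin 12 → ℕ := ![1, 1, 2, 3, 4, 5, 5, 0, 1, 2, 3, 4]
def parF : Fin 12 → Fin 12 := ![11, 10, 8, 9, 10, 8, 11, 7, 7, 7, 7, 9]
def rkF : Fin 12 → ℕ := ![3, 2, 2, 2, 2, 2, 3, 0, 1, 1, 1, 2]

def TT : PhyloTree 7 := mkTree parT rkT (by decide +kernel) (by decide +kernel) (by decide +kernel)
def TF : PhyloTree 7 := mkTree parF rkF (by decide +kernel) (by decide +kernel) (by decide +kernel)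

theorem TT_cat : TT.IsCaterpillar := by
  right
  have hr : ∀ v : Fin 12, v ∉ Set.range lf ↔ 7 ≤ v.val := by
    intro v
    constructor
    · intro h
      by_contra h7
      exact h ⟨⟨v.val, by omega⟩, rfl⟩
    · rintro h ⟨i, rfl⟩
      have := i.2
      simp [lf] at h
      omega
  have hadj : ∀ u v : Fin 12, 7 ≤ u.val → 7 ≤ v.val →
      ((u.val - 7 + 1 = v.val - 7 ∨ v.val - 7 + 1 = u.val - 7) ↔ (ofPar parT).Adj u v) := by
    decide +kernel
  refine ⟨⟨⟨fun v => ⟨(show Fin 12 from v.1).val - 7, ?_⟩,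
    fun t => ⟨(⟨t.val + 7, ?_⟩ : Fin 12), ?_⟩, ?_, ?_⟩, ?_⟩⟩
  · have := (show Fin 12 from v.1).2
    omega
  · have := t.2
    omega
  · exact (hr _).mpr (by simp)
  · rintro ⟨v, hv⟩
    have := (hr v).mp hv
    apply Subtype.ext
    apply Fin.ext
    simp
    omega
  · intro t
    apply Fin.ext
    simp
  · rintro ⟨u, hu⟩ ⟨v, hv⟩
    rw [pathGraph_adj]
    exact hadj u v ((hr u).mp hu) ((hr v).mp hv)

theorem through {V : Type} (G H : SimpleGraph V) (hle : H ≤ G) (x : V) (comp : V → ℕ)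
    (h : ∀ u v, G.Adj u v → u ≠ x → v ≠ x → comp u = comp v) :
    ∀ (u v : V) (_ : H.Walk u v), v ≠ x → comp u ≠ comp v → H.Reachable u x := by
  intro u v w
  induction w with
  | nil => intro _ h; exact absurd rfl h
  | @cons a b c hab _ ih =>
    intro hc hne
    by_cases ha : a = x
    · subst ha; rfl
    by_cases hb : b = x
    · subst hb; exact hab.reachable
    · exact hab.reachable.trans (ih hc (by rw [← h a b (hle hab) ha hb]; exact hne))

theorem cross_spec (par : Fin 12 → Fin 12) (L : List ℕ)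
    (hL : ∀ c ∈ L, ∃ x : Fin 12, 7 ≤ x.val ∧
      ∀ u v : Fin 12, (ofPar par).Adj u v → u ≠ x → v ≠ x → d4 c u = d4 c v)
    (D : Set (Sym2 (Fin 12))) (a b c d : Fin 7) (h : cross L a b c d = true)
    (hab : ((ofPar par).deleteEdges D).Reachable (lf a) (lf b))
    (hcd : ((ofPar par).deleteEdges D).Reachable (lf c) (lf d)) :
    ((ofPar par).deleteEdges D).Reachable (lf a) (lf c) := by
  simp only [cross, List.any_eq_true, Bool.and_eq_true, bne_iff_ne, ne_eq] at h
  obtain ⟨y, hy, h1, h2⟩ := h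
  obtain ⟨x, hx, hxx⟩ := hL y hy
  have hne : ∀ i : Fin 7, lf i ≠ x := by
    intro i e
    have := i.2
    have := congrArg Fin.val e
    simp [lf] at this
    omega
  obtain ⟨w1⟩ := hab
  obtain ⟨w2⟩ := hcd
  exact (through _ _ (deleteEdges_le D) x (fun v => d4 y v) hxx _ _ w1 (hne b) h1).trans
    (through _ _ (deleteEdges_le D) x (fun v => d4 y v) hxx _ _ w2 (hne d) h2).symm

theorem hCT : ∀ c ∈ CT, ∃ x : Fin 12, 7 ≤ x.val ∧
    ∀ u v : Fin 12, (ofPar parT).Adj u v → u ≠ x → v ≠ x → d4 c u = d4 c v := by decide +kernel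

theorem hCF : ∀ c ∈ CF, ∃ x : Fin 12, 7 ≤ x.val ∧
    ∀ u v : Fin 12, (ofPar parF).Adj u v → u ≠ x → v ≠ x → d4 c u = d4 c v := by decide +kernel

theorem mem_take (k : ℕ) (hk : k ≤ 7) (m : ℕ) (hm : m < k) : m ∈ R7.take k := by
  have : ∀ k : Fin 8, ∀ m : Fin 8, m.val < k.val → m.val ∈ R7.take k.val := by decide +kernel
  exact this ⟨k, by omega⟩ ⟨m, by omega⟩ hm

theorem of_mem_R7 {m : ℕ} (h : m ∈ R7) : m < 7 := by
  simp only [R7, List.mem_cons, List.not_mem_nil, or_false] at h
  omega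

theorem common_le : common TT TF 4 ≤ 35 := by
  classical
  let K : ℕ → Setoid (Fin 7) := fun c => Setoid.ker (fun i : Fin 7 => dig c i)
  have hsub : TT.parts ∩ TF.parts ∩ {r | Nat.card (Quotient r) = 4} ⊆ K '' (LT.toFinset : Set ℕ) := by
    rintro r ⟨⟨⟨D1, h1⟩, ⟨D2, h2⟩⟩, h4⟩
    have hex : ∀ i : Fin 7, ∃ j : Fin 7, r j i ∧ ∀ k, r k i → j ≤ k := by
      intro i
      obtain ⟨j, hj, hmin⟩ := (Finset.univ.filter (fun j => r j i)).exists_min_image id
        ⟨i, by simp⟩
      exact ⟨j, by simpa using hj, fun k hk => hmin k (by simpa using hk)⟩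
    choose f hf hmin using hex
    have hker : ∀ i j, r i j ↔ f i = f j := by
      intro i j
      constructor
      · intro hij
        exact le_antisymm (hmin i _ (r.trans (hf j) (r.symm hij))) (hmin j _ (r.trans (hf i) hij))
      · intro e
        exact r.trans (r.symm (hf i)) (e ▸ hf j)
    have hle : ∀ i, (f i).val ≤ i.val := fun i => hmin i i (r.refl i)
    have hff : ∀ i, f (f i) = f i := fun i => (hker _ _).mp (hf i)
    let a : Fin 7 → ℕ := fun i => (f i).val
    have ha0 : a 0 = 0 := by have := hle 0; simp [a] at this ⊢; exact this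
    have hd : ∀ i : Fin 7, dig (enc 0 (a 1) (a 2) (a 3) (a 4) (a 5) (a 6)) i = a i := by
      intro i
      have := dig_enc a (fun i => by have := (f i).2; simp only [a]; omega) i
      rwa [ha0] at this
    have hr : r = Setoid.ker a := by
      ext i j
      rw [hker, Setoid.ker_def]
      simp [a, Fin.ext_iff]
    have hcount : (if a 1 = 1 then 1 else 0) + (if a 2 = 2 then 1 else 0) + (if a 3 = 3 then 1 else 0) +
        (if a 4 = 4 then 1 else 0) + (if a 5 = 5 then 1 else 0) + (if a 6 = 6 then 1 else 0) = 3 := by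
      have h5 : Nat.card (Quotient r) = 4 := h4
      rw [hr, card_quot] at h5
      have : Finset.univ.image a = (Finset.univ.filter (fun i : Fin 7 => a i = i.val)).image Fin.val := by
        ext x
        simp only [Finset.mem_image, Finset.mem_univ, true_and, Finset.mem_filter]
        constructor
        · rintro ⟨i, rfl⟩
          exact ⟨f i, by simp [a, hff], rfl⟩
        · rintro ⟨i, hi, rfl⟩
          exact ⟨i, hi⟩
      rw [this, Finset.card_image_of_injective _ Fin.val_injective, Finset.card_filter,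
        Fin.sum_univ_seven] at h5
      simp only [ha0] at h5
      have e1 : ((1 : Fin 7) : ℕ) = 1 := rfl
      have e2 : ((2 : Fin 7) : ℕ) = 2 := rfl
      have e3 : ((3 : Fin 7) : ℕ) = 3 := rfl
      have e4 : ((4 : Fin 7) : ℕ) = 4 := rfl
      have e5 : ((5 : Fin 7) : ℕ) = 5 := rfl
      have e6 : ((6 : Fin 7) : ℕ) = 6 := rfl
      have e0 : ((0 : Fin 7) : ℕ) = 0 := rfl
      rw [e0, e1, e2, e3, e4, e5, e6, if_pos rfl] at h5
      omega
    have hB := checkB_true
    simp only [checkB, List.all_eq_true] at hB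
    have hB2 := hB (a 1) (mem_take 2 (by omega) _ (by have := hle 1; simp only [a]; omega))
      (a 2) (mem_take 3 (by omega) _ (by have := hle 2; simp only [a]; omega))
      (a 3) (mem_take 4 (by omega) _ (by have := hle 3; simp only [a]; omega))
      (a 4) (mem_take 5 (by omega) _ (by have := hle 4; simp only [a]; omega))
      (a 5) (mem_take 6 (by omega) _ (by have := hle 5; simp only [a]; omega))
      (a 6) (mem_R7 (f 6))
    set c := enc 0 (a 1) (a 2) (a 3) (a 4) (a 5) (a 6) with hc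
    have hcan : (R7.all fun i => dig c (dig c i) == dig c i) = true := by
      rw [List.all_eq_true]
      intro m hm
      have := hd ⟨m, of_mem_R7 hm⟩
      simp only at this
      rw [this, beq_iff_eq]
      have h6 := hd (f ⟨m, of_mem_R7 hm⟩)
      simp only [a, hff] at h6 ⊢
      exact h6
    rw [hcount, hcan] at hB2
    simp only [bne_self_eq_false, Bool.not_true, Bool.or_self, Bool.false_or, Bool.or_eq_true] at hB2
    rcases hB2 with hB2 | hB2
    · refine ⟨c, by simpa using hB2, ?_⟩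
      rw [hr]
      simp only [K]
      congr 1
      funext i
      exact hd i
    · exfalso
      simp only [badB, List.any_eq_true, Bool.and_eq_true, beq_iff_eq, bne_iff_ne, ne_eq,
        Bool.or_eq_true] at hB2
      obtain ⟨w, hw, x, hx, ⟨e1, _⟩, y, hy, e2, z, hz, ⟨e3, _⟩, hcr⟩ := hB2
      have g1 := hd ⟨w, of_mem_R7 hw⟩
      have g2 := hd ⟨x, of_mem_R7 hx⟩
      have g3 := hd ⟨y, of_mem_R7 hy⟩
      have g4 := hd ⟨z, of_mem_R7 hz⟩
      simp only at g1 g2 g3 g4
      have r1 : r ⟨w, of_mem_R7 hw⟩ ⟨x, of_mem_R7 hx⟩ := by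
        rw [hr, Setoid.ker_def, ← g1, ← g2]; exact e1
      have r2 : r ⟨y, of_mem_R7 hy⟩ ⟨z, of_mem_R7 hz⟩ := by
        rw [hr, Setoid.ker_def, ← g3, ← g4]; exact e3
      have r3 : r ⟨w, of_mem_R7 hw⟩ ⟨y, of_mem_R7 hy⟩ := by
        rcases hcr with hcr | hcr
        · exact (h1 _ _).mpr (cross_spec parT CT hCT D1 _ _ _ _ hcr ((h1 _ _).mp r1) ((h1 _ _).mp r2))
        · exact (h2 _ _).mpr (cross_spec parF CF hCF D2 _ _ _ _ hcr ((h2 _ _).mp r1) ((h2 _ _).mp r2))
      rw [hr, Setoid.ker_def, ← g1, ← g3] at r3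
      exact e2 r3
  unfold common
  refine (Set.ncard_le_ncard hsub (Set.toFinite _)).trans ?_
  refine (Set.ncard_image_le (Set.toFinite _)).trans ?_
  rw [Set.ncard_coe_finset]
  exact (List.toFinset_card_le LT).trans (by decide)

theorem sMin_lt_cMin : sMin 7 4 < cMin 7 4 := by
  have h1 : sMin 7 4 ≤ 35 := by
    have hm : common TT TF 4 ∈ {m | ∃ T F : PhyloTree 7, common T F 4 = m} := ⟨TT, TF, rfl⟩
    exact (Nat.sInf_le hm).trans common_le
  have h2 : 36 ≤ cMin 7 4 := by
    have hne : {m | ∃ T F : PhyloTree 7, T.IsCaterpillar ∧ F.IsCaterpillar ∧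
        common T F 4 = m}.Nonempty := ⟨_, TT, TT, TT_cat, TT_cat, rfl⟩
    obtain ⟨T, F, hT, hF, h⟩ := Nat.sInf_mem hne
    unfold cMin
    rw [← h]
    exact common_ge T F hT hF
  omega

end H316Z.Tree
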